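import Mathlib
import Pool.Agent.Helper113.FFinal

set_option autoImplicit false

universe u

namespace Pool.Agent.Results.MP_9f71a8_co.SingularValue

/-- `P ∈ 𝒟(μ)`: the partially ordered set `P` contains no antichain (set of pairwise incomparable
elements) of cardinality `μ`. -/
def NoAntichain (μ : Cardinal.{u}) (P : Type u) [PartialOrder P] : Prop :=
  ¬ ∃ A : Set P, IsAntichain (· ≤ ·) A ∧ Cardinal.mk A = μ

/-- `P` is a union of fewer than `lam` ideals (`Order.Ideal`: nonempty up-directed initial
segments). -/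
def UnionOfFewer (lam : Cardinal.{u}) (P : Type u) [PartialOrder P] : Prop :=
  ∃ S : Set (Order.Ideal P), Cardinal.mk S < lam ∧ ∀ x : P, ∃ I ∈ S, x ∈ I

/-- `F μ` is the least cardinal `lam` such that every `P ∈ 𝒟(μ)` is a union of fewer than `lam`
ideals. -/
noncomputable def F (μ : Cardinal.{u}) : Cardinal.{u} :=
  sInf {lam | ∀ (P : Type u) [PartialOrder P], NoAntichain μ P → UnionOfFewer lam P}

/-- `F(μ) = μ` for every singular strong limit cardinal `μ`; in particular, under GCH (hence under
`V = L`), for every singular cardinal `μ`. -/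
theorem result :
    (∀ μ : Cardinal.{u}, μ.IsSingular → μ.IsStrongLimit →
      (∀ (P : Type u) [PartialOrder P], NoAntichain μ P → UnionOfFewer μ P) ∧ F μ = μ) ∧
    ((∀ κ : Cardinal.{u}, Cardinal.aleph0 ≤ κ → (2 : Cardinal.{u}) ^ κ = Order.succ κ) →
      ∀ μ : Cardinal.{u}, μ.IsSingular →
        (∀ (P : Type u) [PartialOrder P], NoAntichain μ P → UnionOfFewer μ P) ∧ F μ = μ) := by
  have main : ∀ μ : Cardinal.{u}, μ.IsSingular → μ.IsStrongLimit →
      (∀ (P : Type u) [PartialOrder P], NoAntichain μ P → UnionOfFewer μ P) ∧ F μ = μ := by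
    intro μ hμ hsl
    have h1 : ∀ (P : Type u) [PartialOrder P], NoAntichain μ P → UnionOfFewer μ P :=
      fun P _ hP => Pool.Agent.Helper113.F.final hμ hsl hP
    refine ⟨h1, le_antisymm (csInf_le' h1) ?_⟩
    refine le_csInf ⟨μ, h1⟩ ?_
    intro lam hlam
    by_contra hlt
    rw [not_le] at hlt
    have h2 : NoAntichain μ (Pool.Agent.Helper113.F.Disc lam.out) := by
      rintro ⟨A, _, hA⟩
      have h3 : Cardinal.mk A ≤ lam := by
        calc Cardinal.mk A ≤ Cardinal.mk (Pool.Agent.Helper113.F.Disc lam.out) :=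
              Cardinal.mk_set_le A
          _ = Cardinal.mk lam.out := rfl
          _ = lam := Cardinal.mk_out lam
      rw [hA] at h3
      exact absurd h3 (not_le.2 hlt)
    obtain ⟨S, hS1, hS2⟩ := hlam (Pool.Agent.Helper113.F.Disc lam.out) h2
    exact absurd (Pool.Agent.Helper113.F.disc_lower S hS2) (not_le.2 hS1)
  refine ⟨main, ?_⟩
  intro gch μ hμ
  exact main μ hμ (Pool.Agent.Helper113.F.strongLimit_of_gch gch hμ)

end Pool.Agent.Results.MP_9f71a8_co.SingularValue
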