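import Mathlib
import Pool.Agent.Helper113.FTable2

set_option autoImplicit false

universe u

namespace Pool.Agent.Results.MP_9f71a8_co.ValueTable

/-- `P ∈ 𝒟(μ)`: the partially ordered set `P` contains no antichain (set of pairwise incomparable
elements) of cardinality `μ`. -/
def NoAntichain (μ : Cardinal.{u}) (P : Type u) [PartialOrder P] : Prop :=
  ¬ ∃ A : Set P, IsAntichain (· ≤ ·) A ∧ Cardinal.mk A = μ

/-- `P` is a union of fewer than `lam` ideals (`Order.Ideal`: nonempty up-directed initial
segments). -/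
def UnionOfFewer (lam : Cardinal.{u}) (P : Type u) [PartialOrder P] : Prop :=
  ∃ S : Set (Order.Ideal P), Cardinal.mk S < lam ∧ ∀ x : P, ∃ I ∈ S, x ∈ I

/-- `F μ` is the least cardinal `lam` such that every `P ∈ 𝒟(μ)` is a union of fewer than `lam`
ideals. -/
noncomputable def F (μ : Cardinal.{u}) : Cardinal.{u} :=
  sInf {lam | ∀ (P : Type u) [PartialOrder P], NoAntichain μ P → UnionOfFewer lam P}

/-- `μ` is weakly compact: it is uncountable and inaccessible and satisfies the partition relation
`μ → (μ)²₂` (for uncountable `μ` the partition relation already implies inaccessibility). -/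
def WeaklyCompact (μ : Cardinal.{u}) : Prop :=
  μ.IsInaccessible ∧
    ∀ c : μ.ord.ToType → μ.ord.ToType → Prop, ∃ H : Set μ.ord.ToType, Cardinal.mk H = μ ∧
      ((∀ i ∈ H, ∀ j ∈ H, i < j → c i j) ∨ (∀ i ∈ H, ∀ j ∈ H, i < j → ¬ c i j))

/-- There is a `μ`-Souslin tree: a partial order of cardinality `μ` in which the predecessors of
every element are well-ordered and in which all chains and all antichains have cardinality less
than `μ`. -/
def HasSouslinTree (μ : Cardinal.{u}) : Prop :=
  ∃ (T : Type u) (_ : PartialOrder T),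
    (∀ t : T, IsChain (· ≤ ·) (Set.Iio t) ∧ (Set.Iio t).WellFoundedOn (· < ·)) ∧
    Cardinal.mk T = μ ∧
    (∀ C : Set T, IsChain (· ≤ ·) C → Cardinal.mk C < μ) ∧
    (∀ A : Set T, IsAntichain (· ≤ ·) A → Cardinal.mk A < μ)

/-- The generalized continuum hypothesis. -/
def GCH : Prop := ∀ κ : Cardinal.{u}, Cardinal.aleph0 ≤ κ → (2 : Cardinal.{u}) ^ κ = Order.succ κ

theorem lower {μ lam : Cardinal.{u}}
    (hlam : ∀ (P : Type u) [PartialOrder P], NoAntichain μ P → UnionOfFewer lam P) : μ ≤ lam := by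
  by_contra hlt
  rw [not_le] at hlt
  have h2 : NoAntichain μ (Pool.Agent.Helper113.F.Disc lam.out) := by
    rintro ⟨A, _, hA⟩
    have h3 : Cardinal.mk A ≤ lam := by
      calc Cardinal.mk A ≤ Cardinal.mk (Pool.Agent.Helper113.F.Disc lam.out) :=
            Cardinal.mk_set_le A
        _ = Cardinal.mk lam.out := rfl
        _ = lam := Cardinal.mk_out lam
    rw [hA] at h3
    exact absurd h3 (not_le.2 hlt)
  obtain ⟨S, hS1, hS2⟩ := hlam (Pool.Agent.Helper113.F.Disc lam.out) h2
  exact absurd (Pool.Agent.Helper113.F.disc_lower S hS2) (not_le.2 hS1)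

theorem value {μ lam : Cardinal.{u}}
    (h1 : ∀ (P : Type u) [PartialOrder P], NoAntichain μ P → UnionOfFewer lam P)
    (h2 : ∀ lam' : Cardinal.{u},
      (∀ (P : Type u) [PartialOrder P], NoAntichain μ P → UnionOfFewer lam' P) → lam ≤ lam') :
    F μ = lam :=
  le_antisymm (csInf_le' h1) (le_csInf ⟨lam, h1⟩ h2)

theorem singular {μ : Cardinal.{u}} (hμ : μ.IsSingular) (hsl : μ.IsStrongLimit)
    (P : Type u) [PartialOrder P] (hP : NoAntichain μ P) : UnionOfFewer μ P :=
  Pool.Agent.Helper113.F.final hμ hsl hP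

theorem weakly {μ : Cardinal.{u}} (h : μ = Cardinal.aleph0 ∨ WeaklyCompact μ)
    (P : Type u) [PartialOrder P] (hP : NoAntichain μ P) : UnionOfFewer μ P := by
  have hA := Pool.Agent.Helper113.F.lt_of_noAntichain hP
  rcases h with rfl | h
  · exact Pool.Agent.Helper113.F.ideals_of_cov
      (Pool.Agent.Helper113.F.weakly_cov Cardinal.isRegular_aleph0 Cardinal.isStrongLimit_aleph0
        (Pool.Agent.Helper113.F.pow_of_strongLimit Cardinal.isRegular_aleph0
          Cardinal.isStrongLimit_aleph0.isStrongPrelimit)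
        Pool.Agent.Helper113.F.limitProp_aleph0 hA)
  · exact Pool.Agent.Helper113.F.ideals_of_cov
      (Pool.Agent.Helper113.F.weakly_cov h.1.isRegular h.1.isStrongLimit
        (Pool.Agent.Helper113.F.pow_of_strongLimit h.1.isRegular
          h.1.isStrongLimit.isStrongPrelimit)
        (Pool.Agent.Helper113.F.limitProp_of_arrow h.1.isRegular h.1.isStrongLimit h.2) hA)

theorem regular {μ : Cardinal.{u}} (gch : GCH.{u}) (hreg : μ.IsRegular)
    (P : Type u) [PartialOrder P] (hP : NoAntichain μ P) : UnionOfFewer (Order.succ μ) P := by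
  have hA := Pool.Agent.Helper113.F.lt_of_noAntichain hP
  obtain ⟨S, hS1, hS2⟩ := Pool.Agent.Helper113.F.ideals_of_covBy
    (Pool.Agent.Helper113.F.regular_cov hreg (Pool.Agent.Helper113.F.pow_of_gch hreg gch) hA)
  exact ⟨S, Order.lt_succ_of_le hS1, hS2⟩

theorem souslin {μ lam : Cardinal.{u}} (hreg : μ.IsRegular) (h : HasSouslinTree μ)
    (hlam : ∀ (P : Type u) [PartialOrder P], NoAntichain μ P → UnionOfFewer lam P) :
    Order.succ μ ≤ lam := by
  obtain ⟨T, _, h1, h2, h3, h4⟩ := h
  obtain ⟨S, hS1, hS2⟩ := hlam T (by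
    rintro ⟨A, hA1, hA2⟩
    exact absurd hA2 (h4 A hA1).ne)
  have h5 := Pool.Agent.Helper113.F.souslin_lower hreg (fun t => (h1 t).1) h2 h3 S hS2
  exact Order.succ_le_of_lt (h5.trans_lt hS1)

open Classical in
/-- **The value of `F`.**

(1) In ZFC, `F(μ) = μ` for every singular strong limit `μ`.

(2) Under GCH, `F(μ) = μ` if `μ` is `ℵ₀`, singular or weakly compact; for every other infinite `μ`
(these are regular) `F(μ)` is `μ` or `μ⁺`, and it is `μ⁺` if there is a `μ`-Souslin tree.

(3) Hence, assuming GCH and that every regular uncountable cardinal is weakly compact or carries a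
Souslin tree (both hold if `V = L`, by theorems of Gödel and Jensen), `F` is determined at all
infinite cardinals: `F(μ) = μ` if `μ` is `ℵ₀`, singular or weakly compact, and `F(μ) = μ⁺`
otherwise. In each case every `P ∈ 𝒟(μ)` is indeed a union of fewer than `F(μ)` ideals. -/
theorem result :
    (∀ μ : Cardinal.{u}, μ.IsSingular → μ.IsStrongLimit →
      (∀ (P : Type u) [PartialOrder P], NoAntichain μ P → UnionOfFewer (F μ) P) ∧ F μ = μ) ∧
    (GCH.{u} → ∀ μ : Cardinal.{u}, Cardinal.aleph0 ≤ μ →
      (∀ (P : Type u) [PartialOrder P], NoAntichain μ P → UnionOfFewer (F μ) P) ∧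
      ((μ = Cardinal.aleph0 ∨ μ.IsSingular ∨ WeaklyCompact μ) → F μ = μ) ∧
      (F μ = μ ∨ F μ = Order.succ μ) ∧
      (μ.IsRegular → HasSouslinTree μ → F μ = Order.succ μ)) ∧
    (GCH.{u} →
      (∀ μ : Cardinal.{u}, μ.IsRegular → Cardinal.aleph0 < μ →
        WeaklyCompact μ ∨ HasSouslinTree μ) →
      ∀ μ : Cardinal.{u}, Cardinal.aleph0 ≤ μ →
        (∀ (P : Type u) [PartialOrder P], NoAntichain μ P → UnionOfFewer (F μ) P) ∧
        F μ = if μ = Cardinal.aleph0 ∨ μ.IsSingular ∨ WeaklyCompact μ then μ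
          else Order.succ μ) := by
  have h1 : ∀ μ : Cardinal.{u}, μ.IsSingular → μ.IsStrongLimit →
      (∀ (P : Type u) [PartialOrder P], NoAntichain μ P → UnionOfFewer (F μ) P) ∧ F μ = μ := by
    intro μ hμ hsl
    have hF : F μ = μ := value (fun P _ hP => singular hμ hsl P hP) (fun lam' h => lower h)
    refine ⟨?_, hF⟩
    rw [hF]
    exact fun P _ hP => singular hμ hsl P hP
  have h2 : GCH.{u} → ∀ μ : Cardinal.{u}, Cardinal.aleph0 ≤ μ →
      (∀ (P : Type u) [PartialOrder P], NoAntichain μ P → UnionOfFewer (F μ) P) ∧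
      ((μ = Cardinal.aleph0 ∨ μ.IsSingular ∨ WeaklyCompact μ) → F μ = μ) ∧
      (F μ = μ ∨ F μ = Order.succ μ) ∧
      (μ.IsRegular → HasSouslinTree μ → F μ = Order.succ μ) := by
    intro gch μ hinf
    have hval : (μ = Cardinal.aleph0 ∨ μ.IsSingular ∨ WeaklyCompact μ) →
        ∀ (P : Type u) [PartialOrder P], NoAntichain μ P → UnionOfFewer μ P := by
      rintro (h | h | h) P _ hP
      · exact weakly (Or.inl h) P hP
      · exact singular h (Pool.Agent.Helper113.F.strongLimit_of_gch gch h) P hP
      · exact weakly (Or.inr h) P hP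
    have hFval : (μ = Cardinal.aleph0 ∨ μ.IsSingular ∨ WeaklyCompact μ) → F μ = μ :=
      fun h => value (hval h) (fun lam' h => lower h)
    by_cases hc : ∀ (P : Type u) [PartialOrder P], NoAntichain μ P → UnionOfFewer μ P
    · have hF : F μ = μ := value hc (fun lam' h => lower h)
      refine ⟨?_, hFval, Or.inl hF, ?_⟩
      · rw [hF]; exact hc
      · intro hreg hS
        exact absurd (souslin hreg hS hc) (not_le.2 (Order.lt_succ μ))
    · have hnc : ¬ (μ = Cardinal.aleph0 ∨ μ.IsSingular ∨ WeaklyCompact μ) :=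
        fun h => hc (hval h)
      have hreg : μ.IsRegular := by
        rcases Cardinal.isRegular_or_isSingular hinf with h | h
        · exact h
        · exact absurd (Or.inr (Or.inl h)) hnc
      have hF : F μ = Order.succ μ := by
        refine value (fun P _ hP => regular gch hreg P hP) ?_
        intro lam' h
        refine Order.succ_le_of_lt (lt_of_le_of_ne (lower h) ?_)
        rintro rfl
        exact hc h
      refine ⟨?_, hFval, Or.inr hF, fun _ _ => hF⟩
      rw [hF]
      exact fun P _ hP => regular gch hreg P hP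
  refine ⟨h1, h2, ?_⟩
  intro gch hL μ hinf
  obtain ⟨a1, a2, a3, a4⟩ := h2 gch μ hinf
  refine ⟨a1, ?_⟩
  split_ifs with hc
  · exact a2 hc
  · push Not at hc
    have hreg : μ.IsRegular := by
      rcases Cardinal.isRegular_or_isSingular hinf with h | h
      · exact h
      · exact absurd h hc.2.1
    exact a4 hreg ((hL μ hreg (lt_of_le_of_ne hinf (Ne.symm hc.1))).resolve_left hc.2.2)

end Pool.Agent.Results.MP_9f71a8_co.ValueTable
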